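import Pool.Agent.Lib.MP_27cb06_lc.Main

/-!
# The Chang property with `2 ^ κ ≤ κ⁺⁺ < 2 ^ κ⁺`, for `κ = ω`

(1) For every measurable cardinal `μ` there is a notion of forcing such that every condition forces:
`ω₁`, `(2 ^ ω)⁺`, `μ` (of the ground model) are `ω₁`, `ω₂`, `ω₃`; `2 ^ ω = ω₁`; `2 ^ ω₁ ≥ ω₃`; and
`Principle ω₂ ω₃`.

(2) If `Ω`, `N`, `K` are well-orders for which all this is true then the three conditions of the
question hold for `κ = ω`: `(ω₃, ω₂) ↠_ω (ω₁, ω)`, `2 ^ ω ≤ ω₂` and `ω₂ < 2 ^ ω₁`.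
-/

set_option autoImplicit false

namespace Pool.Agent.Results.MP_27cb06_lc.ChangAtOmega

open Cardinal Set Pool.Agent.CC

universe u

/-- (1) From a measurable cardinal `μ`: a notion of forcing `P` such that every condition forces
`Model` for the well-orders `ω₁`, `(2 ^ ω)⁺`, `μ`. (2) If `Model Ω N K` is true, for well-orders `Ω`,
`N`, `K` such that the initial segments of `Ω` are countable, then `ℵ₀` satisfies the three
conditions of the question. -/
theorem result :
    (∀ (μ : Cardinal.{u}) (_ : ℵ₀ < μ) (U : Ultrafilter μ.ord.ToType)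
      (_ : CardinalInterFilter (U : Filter μ.ord.ToType) μ) (_ : ∀ a, {a} ∉ U),
      ∃ (P : Type u) (_ : Preorder P), Nonempty P ∧ ∀ p : P,
        fModel (Order.succ (ℵ₀ : Cardinal.{u})).ord.ToType
          (Order.succ ((2 : Cardinal.{u}) ^ (ℵ₀ : Cardinal.{u}))).ord.ToType μ.ord.ToType P p) ∧
    (∀ (Ω N K : Type u) [LinearOrder Ω] [WellFoundedLT Ω] [LinearOrder N] [WellFoundedLT N]
      [LinearOrder K] [WellFoundedLT K] [Nonempty Ω] [Nonempty N] [Nonempty K],
      (∀ i : Ω, (Iio i).Countable) → Model Ω N K → Question (ℵ₀ : Cardinal.{u})) :=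
  ⟨fun μ hμ U hU hne => forced μ hμ U hU hne,
    fun Ω N K _ _ _ _ _ _ _ _ _ hΩ h => question_of_model Ω N K hΩ h⟩

end Pool.Agent.Results.MP_27cb06_lc.ChangAtOmega
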