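import Pool.Agent.Lib.MP_27cb06_lc.H.Main

/-!
# The Chang property with `2 ^ κ ≤ κ⁺⁺ < 2 ^ κ⁺`, for every regular `κ`, from a huge cardinal

(1) Let `κ < μ < λ`, `κ` regular, and let `U` be a `μ`-complete fine normal ultrafilter on `𝒫(λ)` which
concentrates on the sets of order type `μ` (that is, `μ` is huge with target `λ`). There is a notion of
forcing such that every condition forces: `κ` is regular; `μ`, `(2 ^ μ)⁺`, `λ` (of the ground model) are
`κ⁺`, `κ⁺⁺`, `κ⁺⁺⁺`; `2 ^ κ = κ⁺`; `2 ^ κ⁺ ≥ κ⁺⁺⁺`; and `(κ⁺⁺⁺, κ⁺⁺) ↠_κ (κ⁺, κ)`.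

(2) If all this (`Model c m n`) is true for elements `c < m < n` of a well-order `L`, then the cardinality of
`Iio c` satisfies the three conditions of the question.
-/

set_option autoImplicit false

namespace Pool.Agent.Results.MP_27cb06_lc.ChangFromHuge

open Cardinal Set Pool.Agent.CC Pool.Agent.HG

universe u

/-- (1) From a huge cardinal `μ` with target `λ` and a regular `κ < μ`: a notion of forcing such that every
condition forces `Model` for the elements `κ`, `μ`, `(2 ^ μ)⁺` of `λ`. (2) If `Model c m n` is true for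
elements `c < m < n` of a well-order `L`, `Iio c` nonempty without greatest element, then `#(Iio c)`
satisfies the three conditions of the question. -/
theorem result :
    (∀ (κ μ lam : Cardinal.{u}) (_ : κ.IsRegular) (_ : κ < μ) (_ : μ < lam)
      (U : Ultrafilter (Set lam.ord.ToType))
      (_ : CardinalInterFilter (U : Filter (Set lam.ord.ToType)) μ)
      (_ : ∀ x, ∀ᶠ X in (U : Filter (Set lam.ord.ToType)), x ∈ (X : Set lam.ord.ToType))
      (_ : ∀ f : Set lam.ord.ToType → lam.ord.ToType,
        (∀ᶠ X in (U : Filter (Set lam.ord.ToType)), f X ∈ (X : Set lam.ord.ToType)) →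
        ∃ x, ∀ᶠ X in (U : Filter (Set lam.ord.ToType)), f X = x)
      (_ : ∀ᶠ X in (U : Filter (Set lam.ord.ToType)),
        Ordinal.type (fun x y : ↥(X : Set lam.ord.ToType) => x < y) = μ.ord),
      ∃ c m n : lam.ord.ToType,
        Ordinal.typein (fun x y : lam.ord.ToType => x < y) c = κ.ord ∧
        Ordinal.typein (fun x y : lam.ord.ToType => x < y) m = μ.ord ∧
        Ordinal.typein (fun x y : lam.ord.ToType => x < y) n =
          (Order.succ ((2 : Cardinal.{u}) ^ μ)).ord ∧
        ∃ (P : Type u) (_ : Preorder P), Nonempty P ∧ ∀ p : P, fModel P c m n p) ∧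
    (∀ (L : Type u) [LinearOrder L] [WellFoundedLT L] (c m n : L), c < m → m < n →
      (∃ a, a < c) → (∀ a, a < c → ∃ b, a < b ∧ b < c) → Model c m n → Question (#(Iio c))) :=
  ⟨fun κ μ lam hκ hκμ hμ U hU hfine hnormal hotp =>
      forced κ μ lam hκ hκμ hμ U hU hfine hnormal hotp,
    fun _ _ _ _ _ _ hcm hmn hne hnm h => question_of_model hcm hmn hne hnm h⟩

end Pool.Agent.Results.MP_27cb06_lc.ChangFromHuge
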